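import Pool.Agent.H1.HankB

namespace Pool.Agent.Results.MP_03b314_an.Disproof

open MeasureTheory
open scoped ENNReal NNReal ComplexConjugate

/-- the `ℓ^p(ℤ)` norm of a sequence of Fourier coefficients, valued in `[0,∞]` -/
noncomputable def lpn (p : ℝ) (x : ℤ → ℂ) : ℝ≥0∞ := (∑' n, ‖x n‖ₑ ^ p) ^ (1 / p)

/-- the trigonometric polynomial with (finitely many non-zero) coefficients `u` -/
noncomputable def trig (u : ℤ →₀ ℂ) (x : AddCircle (1 : ℝ)) : ℂ :=
  ∑ j ∈ u.support, u j * fourier j x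

/-- `m ∈ M_p`: an integrable function on the circle which multiplies `ℓ^p` into itself -/
def IsMultiplier (p : ℝ) (m : AddCircle (1 : ℝ) → ℂ) : Prop :=
  Integrable m AddCircle.haarAddCircle ∧ ∃ C : ℝ≥0, ∀ u : ℤ →₀ ℂ,
    lpn p (fourierCoeff fun x => m x * trig u x) ≤ C * lpn p u

/-- Fourier coefficients of `H_f g = (I - P₊)(conj f · g)` -/
noncomputable def hankel (f : AddCircle (1 : ℝ) → ℂ) (g : ℤ →₀ ℂ) (n : ℤ) : ℂ :=
  if n < 0 then fourierCoeff (fun x => conj (f x) * trig g x) n else 0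

/-- `H_f` acts from `ℓ^p A` to `ℓ^p` -/
def HankelActs (p : ℝ) (f : AddCircle (1 : ℝ) → ℂ) : Prop :=
  ∃ C : ℝ≥0, ∀ g : ℤ →₀ ℂ, (∀ n < 0, g n = 0) → lpn p (hankel f g) ≤ C * lpn p g

lemma coeff_mul_trig {m : AddCircle (1 : ℝ) → ℂ} (hm : Integrable m AddCircle.haarAddCircle)
    (u : ℤ →₀ ℂ) (n : ℤ) :
    fourierCoeff (fun x => m x * trig u x) n = ∑ j ∈ u.support, fourierCoeff m (n - j) * u j := by
  unfold fourierCoeff trig
  have : ∀ x : AddCircle (1 : ℝ), fourier (-n) x • (m x * ∑ j ∈ u.support, u j * fourier j x) =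
      ∑ j ∈ u.support, (fourier (-(n - j)) x • m x) * u j := by
    intro x
    rw [Finset.mul_sum, Finset.smul_sum]
    refine Finset.sum_congr rfl fun j _ => ?_
    rw [show -(n - j) = -n + j by ring, fourier_add]
    simp only [smul_eq_mul]; ring
  simp_rw [this]
  rw [integral_finsetSum]
  · exact Finset.sum_congr rfl fun j _ => integral_mul_const _ _
  · intro j _
    refine Integrable.mul_const ?_ _
    simp only [smul_eq_mul]
    exact hm.bdd_mul (c := 1) (map_continuous _).aestronglyMeasurable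
      (Filter.Eventually.of_forall fun x => by simp [fourier_apply])

lemma coeff_conj (f : AddCircle (1 : ℝ) → ℂ) (k : ℤ) :
    fourierCoeff (fun x => conj (f x)) k = conj (fourierCoeff f (-k)) := by
  unfold fourierCoeff
  rw [← integral_conj]
  congr 1
  ext x
  rw [neg_neg, fourier_neg]
  simp

theorem result (p : ℝ) (hp : 1 < p) (hp2 : p ≠ 2) :
    ∃ f : AddCircle (1 : ℝ) → ℂ, MemLp f 2 AddCircle.haarAddCircle ∧
      (∀ n < 0, fourierCoeff f n = 0) ∧ HankelActs p f ∧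
      (¬ ∃ m, IsMultiplier p m ∧ ∀ n, 0 ≤ n → fourierCoeff m n = fourierCoeff f n) ∧
      ∀ K : ℤ → ℂ, (∀ n, 0 ≤ n → K n = fourierCoeff f n) →
        ¬ ∃ C : ℝ≥0, ∀ u : ℤ →₀ ℂ,
          lpn p (fun n => ∑ j ∈ u.support, K (n - j) * u j) ≤ C * lpn p u := by
  let F : Lp ℂ 2 (AddCircle.haarAddCircle (T := 1)) :=
    fourierBasis.repr.symm ⟨Pool.Agent.H1.Hank.lac, Pool.Agent.H1.Hank.lac_memlp⟩
  have hF : ∀ n, fourierCoeff (F : AddCircle (1 : ℝ) → ℂ) n = Pool.Agent.H1.Hank.lac n := by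
    intro n
    rw [← fourierBasis_repr]
    simp [F]
  have hF2 : MemLp (F : AddCircle (1 : ℝ) → ℂ) 2 AddCircle.haarAddCircle := Lp.memLp F
  have hF1 : Integrable (F : AddCircle (1 : ℝ) → ℂ) AddCircle.haarAddCircle :=
    hF2.integrable (by norm_num)
  have hK : ∀ K : ℤ → ℂ, (∀ n, 0 ≤ n → K n = fourierCoeff (F : AddCircle (1 : ℝ) → ℂ) n) →
      ¬ ∃ C : ℝ≥0, ∀ u : ℤ →₀ ℂ,
        lpn p (fun n => ∑ j ∈ u.support, K (n - j) * u j) ≤ C * lpn p u :=
    fun K h => Pool.Agent.H1.Hank.not_mult hp hp2 (fun n hn => by rw [h n hn, hF])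
  refine ⟨F, hF2, fun n hn => by rw [hF, Pool.Agent.H1.Hank.lac_neg hn], ?_, ?_, hK⟩
  · obtain ⟨C, hC⟩ := Pool.Agent.H1.Hank.hank_bdd hp
    refine ⟨C, fun g hg => ?_⟩
    have hc : Integrable (fun x => conj ((F : AddCircle (1 : ℝ) → ℂ) x)) AddCircle.haarAddCircle :=
      (Complex.conjCLE : ℂ →L[ℝ] ℂ).integrable_comp hF1
    have : hankel F g = fun n => if n < 0 then
        ∑ j ∈ g.support, conj (Pool.Agent.H1.Hank.lac (j - n)) * g j else 0 := by
      funext n
      unfold hankel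
      split_ifs
      · rw [coeff_mul_trig hc]
        refine Finset.sum_congr rfl fun j _ => ?_
        rw [coeff_conj, hF, neg_sub]
      · rfl
    rw [this]
    exact hC g hg
  · rintro ⟨m, ⟨hm, C, hC⟩, h⟩
    refine hK (fourierCoeff m) h ⟨C, fun u => ?_⟩
    have := hC u
    rwa [show (fourierCoeff fun x => m x * trig u x) = _ from funext (coeff_mul_trig hm u)] at this

end Pool.Agent.Results.MP_03b314_an.Disproof
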